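import Mathlib

/-!
# Windows of scales: sums with weights `1 / k` over the windows `(A, X]`
-/

namespace Pool.Agent.Lib.MP_d57abb_nt.GA.AW

open Finset

theorem ioc_split {E : Type*} [AddCommMonoid E] (f : ℕ → E) {a b c : ℕ} (h1 : a ≤ b) (h2 : b ≤ c) :
    ∑ k ∈ Ioc a c, f k = ∑ k ∈ Ioc a b, f k + ∑ k ∈ Ioc b c, f k := by
  rw [← Finset.sum_union (Finset.disjoint_left.2 fun x h3 h4 => by
    rw [mem_Ioc] at h3 h4
    omega)]
  refine Finset.sum_congr ?_ fun _ _ => rfl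
  ext x
  simp only [mem_union, mem_Ioc]
  omega

theorem dy_block {f : ℕ → ℝ} (hf : ∀ k, 0 ≤ f k) {α β : ℝ}
    (h : ∀ N : ℕ, ∑ k ∈ Icc 1 N, f k ≤ α * N + β * √N) (b : ℕ) :
    ∑ k ∈ Ioc (4 ^ b) (4 ^ (b + 1)), f k / k ≤ 4 * α + 2 * β / 2 ^ b := by
  have h4 : (0 : ℝ) < 4 ^ b := by positivity
  have h1 : ∑ k ∈ Ioc (4 ^ b) (4 ^ (b + 1)), f k / k ≤
      ∑ k ∈ Ioc (4 ^ b) (4 ^ (b + 1)), f k / 4 ^ b := by
    refine Finset.sum_le_sum fun k hk => ?_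
    have h2 : ((4 ^ b : ℕ) : ℝ) ≤ k := by exact_mod_cast (mem_Ioc.1 hk).1.le
    push_cast at h2
    exact div_le_div_of_nonneg_left (hf k) h4 h2
  refine h1.trans ?_
  rw [← Finset.sum_div, div_le_iff₀ h4]
  have h2 : ∑ k ∈ Ioc (4 ^ b) (4 ^ (b + 1)), f k ≤ ∑ k ∈ Icc 1 (4 ^ (b + 1)), f k := by
    refine Finset.sum_le_sum_of_subset_of_nonneg ?_ fun k _ _ => hf k
    intro k hk
    rw [mem_Ioc] at hk
    rw [mem_Icc]
    omega
  refine (h2.trans (h _)).trans (le_of_eq ?_)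
  have h3 : √((4 ^ (b + 1) : ℕ) : ℝ) = 2 * 2 ^ b := by
    have : ((4 ^ (b + 1) : ℕ) : ℝ) = (2 * 2 ^ b) ^ 2 := by
      push_cast
      rw [mul_pow, ← pow_mul, pow_succ, mul_comm b 2, pow_mul]
      norm_num
      ring
    rw [this, Real.sqrt_sq (by positivity)]
  have h5 : (4 : ℝ) ^ b = 2 ^ b * 2 ^ b := by
    rw [← mul_pow]
    norm_num
  rw [h3]
  push_cast
  rw [pow_succ, h5]
  have h6 : (0 : ℝ) < 2 ^ b := by positivity
  field_simp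

theorem dy {f : ℕ → ℝ} (hf : ∀ k, 0 ≤ f k) {α β : ℝ} (hβ : 0 ≤ β)
    (h : ∀ N : ℕ, ∑ k ∈ Icc 1 N, f k ≤ α * N + β * √N) (b s : ℕ) :
    ∑ k ∈ Ioc (4 ^ b) (4 ^ (b + s)), f k / k ≤ 4 * α * s + 4 * β := by
  have h1 : ∀ s : ℕ, ∑ k ∈ Ioc (4 ^ b) (4 ^ (b + s)), f k / k ≤
      4 * α * s + 4 * β * (1 - 1 / 2 ^ s) / 2 ^ b := by
    intro s
    induction s with
    | zero => simp
    | succ s ih =>
      have h2 : (4 : ℕ) ^ b ≤ 4 ^ (b + s) := Nat.pow_le_pow_right (by norm_num) (by omega)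
      have h3 : (4 : ℕ) ^ (b + s) ≤ 4 ^ (b + (s + 1)) := Nat.pow_le_pow_right (by norm_num) (by omega)
      rw [ioc_split _ h2 h3]
      have h4 := dy_block hf h (b + s)
      have h5 : b + (s + 1) = b + s + 1 := by omega
      rw [h5]
      have h6 : 4 * β * (1 - 1 / 2 ^ (s + 1)) / 2 ^ b =
          4 * β * (1 - 1 / 2 ^ s) / 2 ^ b + 2 * β / 2 ^ (b + s) := by
        rw [pow_succ, pow_add]
        field_simp
        ring
      rw [h6]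
      push_cast
      linarith
  refine (h1 s).trans ?_
  have h2 : (0 : ℝ) < 2 ^ b := by positivity
  have h3 : (1 : ℝ) ≤ 2 ^ b := one_le_pow₀ (by norm_num)
  have h4 : (0 : ℝ) ≤ 1 / 2 ^ s := by positivity
  have h5 : 4 * β * (1 - 1 / 2 ^ s) / 2 ^ b ≤ 4 * β := by
    rw [div_le_iff₀ h2]
    have h6 : 4 * β * (1 - 1 / 2 ^ s) ≤ 4 * β := by nlinarith
    have h7 : 4 * β * 1 ≤ 4 * β * 2 ^ b := mul_le_mul_of_nonneg_left h3 (by linarith)
    linarith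
  linarith

/-- the powers of four around a window -/
theorem win {A X : ℕ} (hA : 1 ≤ A) (hX : A ≤ X) :
    ∃ b s : ℕ, 4 ^ b ≤ A ∧ A < 4 ^ (b + 1) ∧ 4 ^ (b + s) ≤ X ∧ X < 4 ^ (b + s + 1) ∧
      (s : ℝ) ≤ Real.log (X / A) + 1 := by
  have h1 : 4 ^ Nat.log 4 A ≤ A := Nat.pow_log_le_self 4 (by omega)
  have h2 : A < 4 ^ (Nat.log 4 A + 1) := Nat.lt_pow_succ_log_self (by norm_num) A
  have h3 : 4 ^ Nat.log 4 X ≤ X := Nat.pow_log_le_self 4 (by omega)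
  have h4 : X < 4 ^ (Nat.log 4 X + 1) := Nat.lt_pow_succ_log_self (by norm_num) X
  have h5 : Nat.log 4 A ≤ Nat.log 4 X := Nat.log_mono_right hX
  obtain ⟨s, hs⟩ := Nat.exists_eq_add_of_le h5
  rw [hs] at h3 h4
  refine ⟨Nat.log 4 A, s, h1, h2, h3, h4, ?_⟩
  have hA0 : (0 : ℝ) < A := by exact_mod_cast hA
  have hX0 : (0 : ℝ) < X := by exact_mod_cast (by omega : 0 < X)
  have h6 : (4 : ℝ) ^ s ≤ 4 * (X / A) := by
    rw [mul_div_assoc', le_div_iff₀ hA0]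
    have h7 : (A : ℝ) ≤ 4 * 4 ^ Nat.log 4 A := by
      have : (A : ℝ) < ((4 ^ (Nat.log 4 A + 1) : ℕ) : ℝ) := by exact_mod_cast h2
      push_cast at this
      rw [pow_succ] at this
      linarith
    have h8 : (4 : ℝ) ^ (Nat.log 4 A + s) ≤ X := by exact_mod_cast h3
    rw [pow_add] at h8
    have h9 : (0 : ℝ) < 4 ^ s := by positivity
    calc (4 : ℝ) ^ s * A ≤ 4 ^ s * (4 * 4 ^ Nat.log 4 A) := mul_le_mul_of_nonneg_left h7 h9.le
      _ = 4 * (4 ^ Nat.log 4 A * 4 ^ s) := by ring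
      _ ≤ 4 * X := by linarith
  have h7 : Real.log ((4 : ℝ) ^ s) ≤ Real.log (4 * (X / A)) := Real.log_le_log (by positivity) h6
  rw [Real.log_pow, Real.log_mul (by norm_num) (by positivity)] at h7
  have h8 : 1 ≤ Real.log 4 := by
    rw [Real.le_log_iff_exp_le (by norm_num)]
    have := Real.exp_one_lt_d9
    linarith
  have h9 : 0 ≤ Real.log ((X : ℝ) / A) := by
    apply Real.log_nonneg
    rw [le_div_iff₀ hA0, one_mul]
    exact_mod_cast hX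
  have h10 : (s : ℝ) * Real.log 4 ≤ (Real.log (X / A) + 1) * Real.log 4 := by nlinarith
  exact le_of_mul_le_mul_right h10 (by linarith)

theorem dy_win {f : ℕ → ℝ} (hf : ∀ k, 0 ≤ f k) {α β : ℝ} (hα : 0 ≤ α) (hβ : 0 ≤ β)
    (h : ∀ N : ℕ, ∑ k ∈ Icc 1 N, f k ≤ α * N + β * √N) {A X : ℕ} (hA : 1 ≤ A) (hX : A ≤ X) :
    ∑ k ∈ Ioc A X, f k / k ≤ 4 * α * Real.log (X / A) + (8 * α + 4 * β) := by
  obtain ⟨b, s, h1, h2, h3, h4, h5⟩ := win hA hX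
  have h6 : ∑ k ∈ Ioc A X, f k / k ≤ ∑ k ∈ Ioc (4 ^ b) (4 ^ (b + (s + 1))), f k / k := by
    refine Finset.sum_le_sum_of_subset_of_nonneg ?_ fun k _ _ => div_nonneg (hf k) (Nat.cast_nonneg k)
    intro k hk
    rw [mem_Ioc] at hk ⊢
    have : b + (s + 1) = b + s + 1 := by omega
    rw [this]
    omega
  refine (h6.trans (dy hf hβ h b (s + 1))).trans ?_
  push_cast
  nlinarith

end Pool.Agent.Lib.MP_d57abb_nt.GA.AW
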