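import Pool.Agent.Lib.MP_d57abb_nt.GA.AW.AvgW
import Pool.Agent.Lib.MP_d57abb_nt.GA.AW.DyW
import Pool.Agent.Lib.MP_d57abb_nt.GA.AS.Mass

/-!
# Windows of scales: smooth divisor weights, logarithmic averages over all windows
-/

namespace Pool.Agent.Lib.MP_d57abb_nt.GA.AW

variable [Pool.Agent.Lib.MP_d57abb_nt.GA.TA.Lab]

open Finset Pool.Agent.Lib.MP_d57abb_nt Pool.Agent.Lib.MP_d57abb_nt.GA.TA Pool.Agent.Lib.MP_d57abb_nt.GA.TZ Pool.Agent.Lib.MP_d57abb_nt.GA.AS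

/-- a cutoff: `0` up to `1`, `1` from `4` on -/
noncomputable def gg (x : ℝ) : ℝ := max 0 (min 1 ((x - 1) / 3))

/-- the cutoff of one scale -/
noncomputable def ph (x : ℝ) : ℝ := gg x - gg (x / 4)

/-- the logarithmic sum over a window -/
noncomputable def Lw (ψ : ℝ → ℝ) (z : ℂ) (A X : ℕ) : ℂ :=
  ∑ k ∈ Ioc A X, ((tp ψ k / k : ℝ) : ℂ) * z ^ om k

private theorem BlkW_g0 (x : ℝ) : 0 ≤ gg x := le_max_left _ _

private theorem BlkW_g1 (x : ℝ) : gg x ≤ 1 := max_le zero_le_one (min_le_left _ _)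

private theorem BlkW_gz {x : ℝ} (h : x ≤ 1) : gg x = 0 := by
  unfold gg
  apply max_eq_left
  exact (min_le_right _ _).trans (div_nonpos_of_nonpos_of_nonneg (by linarith) (by norm_num))

private theorem BlkW_go {x : ℝ} (h : 4 ≤ x) : gg x = 1 := by
  unfold gg
  rw [min_eq_left (by rw [le_div_iff₀ (by norm_num)]; linarith), max_eq_right zero_le_one]

private theorem BlkW_gm {x y : ℝ} (h : x ≤ y) : gg x ≤ gg y := by
  unfold gg
  refine max_le_max le_rfl (min_le_min le_rfl ?_)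
  exact div_le_div_of_nonneg_right (by linarith) (by norm_num)

private theorem BlkW_gl (x y : ℝ) : |gg x - gg y| ≤ 1 / 3 * |x - y| := by
  have e1 : |(x - 1) / 3 - (y - 1) / 3| = 1 / 3 * |x - y| := by
    rw [← sub_div, sub_sub_sub_cancel_right, abs_div, abs_of_pos (by norm_num : (0 : ℝ) < 3)]
    ring
  have h0 : 0 ≤ 1 / 3 * |x - y| := by positivity
  unfold gg
  refine (abs_max_sub_max_le_max _ _ _ _).trans (max_le ?_ ?_)
  · rw [sub_self, abs_zero]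
    exact h0
  · refine (abs_min_sub_min_le_max _ _ _ _).trans (max_le ?_ e1.le)
    rw [sub_self, abs_zero]
    exact h0

theorem ph_pw : PW ph 4 1 := by
  refine ⟨fun x => ?_, fun x => ?_, fun x hx => ?_, fun x y => ?_⟩
  · unfold ph
    rcases le_total x 0 with h | h
    · rw [BlkW_gz (by linarith), BlkW_gz (by linarith)]
      norm_num
    · have := BlkW_gm (show x / 4 ≤ x by linarith)
      linarith
  · unfold ph
    have := BlkW_g1 x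
    have := BlkW_g0 (x / 4)
    linarith
  · unfold ph at hx
    constructor
    · by_contra h
      push Not at h
      have h1 : x ≤ 1 := by
        norm_num at h
        linarith
      rw [BlkW_gz h1, BlkW_gz (by linarith)] at hx
      exact hx (sub_self _)
    · by_contra h
      push Not at h
      norm_num at h
      rw [BlkW_go (by linarith), BlkW_go (by linarith)] at hx
      exact hx (sub_self _)
  · unfold ph
    have h1 := BlkW_gl x y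
    have h2 := BlkW_gl (x / 4) (y / 4)
    have h3 : |x / 4 - y / 4| = 1 / 4 * |x - y| := by
      rw [← sub_div, abs_div, abs_of_pos (by norm_num : (0 : ℝ) < 4)]
      ring
    rw [h3] at h2
    have h4 : gg x - gg (x / 4) - (gg y - gg (y / 4)) = (gg x - gg y) - (gg (x / 4) - gg (y / 4)) := by
      ring
    rw [h4]
    have h5 := abs_sub (gg x - gg y) (gg (x / 4) - gg (y / 4))
    have h6 := abs_nonneg (x - y)
    linarith

private theorem BlkW_SK {ψ : ℝ → ℝ} (z : ℂ) {Y : ℝ} (hY : 0 < Y) {N : ℕ} (hN : 16 * Y ≤ N) :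
    SK 4 ph ψ z Y = ∑ k ∈ Icc 1 N, ((ph (k / Y) * tp ψ k / k : ℝ) : ℂ) * z ^ om k := by
  unfold SK
  refine Finset.sum_subset ?_ ?_
  · refine Finset.Icc_subset_Icc le_rfl ?_
    have h1 : ((2 : ℝ) ^ 4 * Y) ≤ N := by norm_num; exact hN
    exact Nat.floor_le_of_le h1
  · intro k hk hk2
    rw [mem_Icc] at hk hk2
    have h1 : ⌊(2 : ℝ) ^ 4 * Y⌋₊ < k := by
      by_contra h
      exact hk2 ⟨hk.1, not_lt.1 h⟩
    have h2 : (2 : ℝ) ^ 4 * Y < k := (Nat.floor_lt (by positivity)).1 h1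
    have h3 : ph (k / Y) = 0 := by
      unfold ph
      have h4 : 16 ≤ (k : ℝ) / Y := by
        rw [le_div_iff₀ hY]
        norm_num at h2
        linarith
      rw [BlkW_go (by linarith), BlkW_go (by linarith), sub_self]
    rw [h3, zero_mul, zero_div, Complex.ofReal_zero, zero_mul]

private theorem BlkW_tel {ψ : ℝ → ℝ} (z : ℂ) {p : ℕ} (hp : 1 ≤ p) (B I N : ℕ)
    (hN : 4 ^ (B + I + 1) ≤ N) :
    ∑ j ∈ range I, SK 4 ph ψ z (4 ^ (B + j) / p) =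
      ∑ k ∈ Icc 1 N, (((gg (k * p / 4 ^ B) - gg (k * p / 4 ^ (B + I))) * tp ψ k / k : ℝ) : ℂ) *
        z ^ om k := by
  have hp0 : (0 : ℝ) < p := by exact_mod_cast hp
  have hp1 : (1 : ℝ) ≤ p := by exact_mod_cast hp
  have h1 : ∀ j ∈ range I, SK 4 ph ψ z (4 ^ (B + j) / p) =
      ∑ k ∈ Icc 1 N, ((ph (k / (4 ^ (B + j) / p)) * tp ψ k / k : ℝ) : ℂ) * z ^ om k := by
    intro j hj
    refine BlkW_SK z (by positivity) ?_
    have hj' := mem_range.1 hj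
    have h2 : (4 : ℝ) ^ (B + j) / p ≤ 4 ^ (B + j) := div_le_self (by positivity) hp1
    have h3 : (4 : ℝ) ^ (B + j + 2) ≤ 4 ^ (B + I + 1) := pow_le_pow_right₀ (by norm_num) (by omega)
    have h4 : ((4 ^ (B + I + 1) : ℕ) : ℝ) ≤ N := by exact_mod_cast hN
    push_cast at h4
    have h5 : (4 : ℝ) ^ (B + j + 2) = 16 * 4 ^ (B + j) := by
      rw [pow_add]
      norm_num
      ring
    linarith
  rw [Finset.sum_congr rfl h1, Finset.sum_comm]
  refine Finset.sum_congr rfl fun k _ => ?_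
  rw [← Finset.sum_mul]
  congr 1
  rw [← Complex.ofReal_sum]
  congr 1
  rw [← Finset.sum_div, ← Finset.sum_mul]
  congr 2
  have h2 : ∀ j ∈ range I, ph (k / (4 ^ (B + j) / p)) =
      gg (k * p / 4 ^ (B + j)) - gg (k * p / 4 ^ (B + (j + 1))) := by
    intro j _
    unfold ph
    have e1 : (k : ℝ) / (4 ^ (B + j) / p) = k * p / 4 ^ (B + j) := by
      field_simp
    have e2 : (k : ℝ) * p / 4 ^ (B + j) / 4 = k * p / 4 ^ (B + (j + 1)) := by
      rw [div_div, ← add_assoc, pow_succ]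
    rw [e1, e2]
  rw [Finset.sum_congr rfl h2]
  exact Finset.sum_range_sub' (fun j => gg (k * p / 4 ^ (B + j))) I

private theorem BlkW_ind {k p B J : ℕ} (hk : 1 ≤ k) (hp : 4 ≤ p) (hJ : p ≤ 4 ^ J) (hB : J ≤ B) :
    |gg ((k : ℝ) * p / 4 ^ B) - (if 4 ^ B < k then 1 else 0)| ≤
      (if k ∈ Ioc (4 ^ (B - J)) (4 ^ B) then (1 : ℝ) else 0) := by
  have h4 : (0 : ℝ) < 4 ^ B := by positivity
  by_cases h1 : 4 ^ B < k
  · rw [if_pos h1]
    have h2 : gg ((k : ℝ) * p / 4 ^ B) = 1 := by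
      apply BlkW_go
      rw [le_div_iff₀ h4]
      have h3 : (4 : ℝ) ^ B ≤ k := by exact_mod_cast h1.le
      have h5 : (4 : ℝ) ≤ p := by exact_mod_cast hp
      nlinarith
    rw [h2, sub_self, abs_zero]
    split_ifs <;> norm_num
  · rw [if_neg h1, sub_zero, abs_of_nonneg (BlkW_g0 _)]
    by_cases h2 : 4 ^ (B - J) < k
    · rw [if_pos (mem_Ioc.2 ⟨h2, not_lt.1 h1⟩)]
      exact BlkW_g1 _
    · have h3 : gg ((k : ℝ) * p / 4 ^ B) = 0 := by
        apply BlkW_gz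
        rw [div_le_one h4]
        have h5 : k * p ≤ 4 ^ (B - J) * 4 ^ J := Nat.mul_le_mul (not_lt.1 h2) hJ
        rw [← pow_add, Nat.sub_add_cancel hB] at h5
        exact_mod_cast h5
      rw [h3]
      split_ifs <;> norm_num

private theorem BlkW_diff {ψ : ℝ → ℝ} {κ : ℕ} {L : ℝ} (hψ : PW ψ κ L) {z : ℂ} (hz : ‖z‖ = 1)
    {p B I J : ℕ} (hp : 4 ≤ p) (hJ : p ≤ 4 ^ J) (hB : J ≤ B) :
    ‖∑ j ∈ range I, SK 4 ph ψ z (4 ^ (B + j) / p) - Lw ψ z (4 ^ B) (4 ^ (B + I))‖ ≤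
      ∑ k ∈ Ioc (4 ^ (B - J)) (4 ^ B), tp ψ k / k +
        ∑ k ∈ Ioc (4 ^ (B + I - J)) (4 ^ (B + I)), tp ψ k / k := by
  obtain ⟨N, hN⟩ : ∃ N : ℕ, N = 4 ^ (B + I + 1) := ⟨_, rfl⟩
  have hsub : ∀ a b : ℕ, b ≤ B + I → Ioc (4 ^ a) (4 ^ b) ⊆ Icc 1 N := by
    intro a b hb k hk
    rw [mem_Ioc] at hk
    rw [mem_Icc]
    have h1 : 4 ^ b ≤ 4 ^ (B + I + 1) := Nat.pow_le_pow_right (by norm_num) (by omega)
    have h2 : 0 < 4 ^ a := by positivity
    omega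
  have hI : ∀ (a b : ℕ), b ≤ B + I → ∀ f : ℕ → ℝ, ∑ k ∈ Ioc (4 ^ a) (4 ^ b), f k =
      ∑ k ∈ Icc 1 N, (if k ∈ Ioc (4 ^ a) (4 ^ b) then (1 : ℝ) else 0) * f k := by
    intro a b hb f
    rw [← Finset.sum_subset (hsub a b hb) (fun k _ hk => by rw [if_neg hk, zero_mul])]
    exact Finset.sum_congr rfl fun k hk => by rw [if_pos hk, one_mul]
  have hle : (4 : ℕ) ^ B ≤ 4 ^ (B + I) := Nat.pow_le_pow_right (by norm_num) (by omega)
  have e0 : Lw ψ z (4 ^ B) (4 ^ (B + I)) = ∑ k ∈ Icc 1 N,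
      ((((if 4 ^ B < k then (1 : ℝ) else 0) - (if 4 ^ (B + I) < k then 1 else 0)) * tp ψ k / k : ℝ) : ℂ) *
        z ^ om k := by
    unfold Lw
    rw [← Finset.sum_subset (hsub B (B + I) le_rfl) (fun k _ hk2 => by
      rw [mem_Ioc] at hk2
      by_cases h1 : 4 ^ B < k
      · have h2 : 4 ^ (B + I) < k := by
          by_contra h3
          exact hk2 ⟨h1, not_lt.1 h3⟩
        rw [if_pos h1, if_pos h2, sub_self, zero_mul, zero_div, Complex.ofReal_zero, zero_mul]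
      · have h2 : ¬ 4 ^ (B + I) < k := by omega
        rw [if_neg h1, if_neg h2, sub_self, zero_mul, zero_div, Complex.ofReal_zero, zero_mul])]
    refine Finset.sum_congr rfl fun k hk => ?_
    rw [mem_Ioc] at hk
    rw [if_pos hk.1, if_neg (not_lt.2 hk.2), sub_zero, one_mul]
  rw [BlkW_tel z (by omega) B I N hN.ge, e0, ← Finset.sum_sub_distrib,
    hI (B - J) B (by omega), hI (B + I - J) (B + I) le_rfl, ← Finset.sum_add_distrib]
  refine (norm_sum_le _ _).trans (Finset.sum_le_sum fun k hk => ?_)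
  have hk1 : 1 ≤ k := (mem_Icc.1 hk).1
  have ht : 0 ≤ tp ψ k / k := div_nonneg (tp_nonneg hψ k) (Nat.cast_nonneg k)
  rw [← sub_mul, norm_mul, norm_pow, hz, one_pow, mul_one, ← Complex.ofReal_sub, Complex.norm_real,
    Real.norm_eq_abs]
  have e1 : (gg (k * p / 4 ^ B) - gg (k * p / 4 ^ (B + I))) * tp ψ k / k -
      ((if 4 ^ B < k then (1 : ℝ) else 0) - (if 4 ^ (B + I) < k then 1 else 0)) * tp ψ k / k =
      ((gg (k * p / 4 ^ B) - (if 4 ^ B < k then (1 : ℝ) else 0)) -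
        (gg (k * p / 4 ^ (B + I)) - (if 4 ^ (B + I) < k then 1 else 0))) * (tp ψ k / k) := by
    ring
  rw [e1, abs_mul, abs_of_nonneg ht, ← add_mul]
  refine mul_le_mul_of_nonneg_right ?_ ht
  refine (abs_sub _ _).trans (add_le_add ?_ ?_)
  · exact BlkW_ind hk1 hp hJ hB
  · exact BlkW_ind hk1 hp hJ (by omega)

theorem TT_sum {ψ : ℝ → ℝ} {κ : ℕ} {L : ℝ} (hψ : PW ψ κ L) :
    ∃ C : ℝ, 0 ≤ C ∧ ∀ N : ℕ, ∑ k ∈ Icc 1 N, tp ψ k ≤ C * N + 0 * √N := by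
  obtain ⟨C, hC, h⟩ := TT_le hψ
  refine ⟨C, hC, fun N => ?_⟩
  have h1 := h N (Nat.cast_nonneg N)
  unfold TT at h1
  rw [Nat.floor_natCast] at h1
  linarith

private theorem BlkW_step {q : ℕ} (hq : 1 ≤ q) {z : ℂ} (hz : z ^ q = 1) (hz1 : MS.Ok z) {ψ : ℝ → ℝ}
    {κ : ℕ} {L : ℝ} (hψ : PW ψ κ L) {ε : ℝ} (hε : 0 < ε) :
    ∃ I : ℕ, 1 ≤ I ∧ ∃ B₀ : ℕ, ∀ B : ℕ, B₀ ≤ B → ‖Lw ψ z (4 ^ B) (4 ^ (B + I))‖ ≤ ε * I := by
  have hzn : ‖z‖ = 1 := Complex.norm_eq_one_of_pow_eq_one hz (by omega)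
  obtain ⟨C, hC, hT⟩ := TT_sum hψ
  obtain ⟨e, he⟩ := avgKw hq hz hz1 ph_pw hψ (half_pos hε)
  obtain ⟨J, I₀, hJ⟩ := he 0
  obtain ⟨I₁, hI₁⟩ := exists_nat_gt (8 * C * J / (ε / 2))
  obtain ⟨B₀, hB₀⟩ := hJ (I₀ + I₁ + 1) (by omega)
  refine ⟨I₀ + I₁ + 1, by omega, B₀ + J, fun B hB => ?_⟩
  obtain ⟨ρ, -, hρ, hcard, hsum⟩ := hB₀ B (by omega)
  obtain ⟨I, hI⟩ : ∃ I : ℕ, I = I₀ + I₁ + 1 := ⟨_, rfl⟩
  rw [← hI] at hsum ⊢
  have hI0 : (0 : ℝ) < I := by exact_mod_cast (by omega : 0 < I)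
  obtain ⟨P, hP⟩ : ∃ P : Finset ℕ, P = PS (PP (2 * e) ρ) := ⟨_, rfl⟩
  rw [← hP] at hcard hsum
  have hn0 : (0 : ℝ) < (P.card : ℝ) := by exact_mod_cast hcard
  have hn : ((P.card : ℕ) : ℂ) ≠ 0 := by exact_mod_cast hcard.ne'
  have hpp : ∀ p ∈ P, 4 ≤ p ∧ p ≤ 4 ^ J := by
    classical
    intro p hp
    rw [hP] at hp
    obtain ⟨⟨-, h1⟩, h2, h3⟩ := mem_PS hp
    constructor
    · have h4 := h2.two_le
      by_contra h5
      have h6 : p = 2 ∨ p = 3 := by omega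
      rcases h6 with rfl | rfl <;> omega
    · refine h1.trans ?_
      unfold PP
      calc 2 ^ (2 * ρ - 2 * e) ≤ 2 ^ (2 * J) := Nat.pow_le_pow_right (by norm_num) (by omega)
        _ = 4 ^ J := by rw [pow_mul]; norm_num
  have hd : ∀ p ∈ P, ‖∑ j ∈ range I, SK 4 ph ψ z (4 ^ (B + j) / p) - Lw ψ z (4 ^ B) (4 ^ (B + I))‖ ≤
      8 * C * J := by
    intro p hp
    obtain ⟨h1, h2⟩ := hpp p hp
    have h3 := BlkW_diff (I := I) hψ hzn h1 h2 (show J ≤ B by omega)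
    have h4 := dy (tp_nonneg hψ) le_rfl hT (B - J) J
    have h5 := dy (tp_nonneg hψ) le_rfl hT (B + I - J) J
    have e1 : B - J + J = B := by omega
    have e2 : B + I - J + J = B + I := by omega
    rw [e1] at h4
    rw [e2] at h5
    linarith
  have h1 : Lw ψ z (4 ^ B) (4 ^ (B + I)) =
      ∑ j ∈ range I, (∑ p ∈ P, SK 4 ph ψ z (4 ^ (B + j) / p)) / (P.card : ℂ) -
      (∑ p ∈ P, (∑ j ∈ range I, SK 4 ph ψ z (4 ^ (B + j) / p) - Lw ψ z (4 ^ B) (4 ^ (B + I)))) /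
        (P.card : ℂ) := by
    rw [← Finset.sum_div, ← sub_div, Finset.sum_sub_distrib, Finset.sum_comm, sub_sub_cancel,
      Finset.sum_const, nsmul_eq_mul, mul_div_cancel_left₀ _ hn]
  have h2 : ‖Lw ψ z (4 ^ B) (4 ^ (B + I))‖ ≤
      ∑ j ∈ range I, ‖(∑ p ∈ P, SK 4 ph ψ z (4 ^ (B + j) / p)) / (P.card : ℂ)‖ + 8 * C * J := by
    rw [h1]
    refine (norm_sub_le _ _).trans (add_le_add (norm_sum_le _ _) ?_)
    rw [norm_div, Complex.norm_natCast, div_le_iff₀ hn0]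
    refine (norm_sum_le _ _).trans ?_
    refine (Finset.sum_le_sum hd).trans (le_of_eq ?_)
    rw [Finset.sum_const, nsmul_eq_mul]
    ring
  rw [div_le_iff₀ hI0] at hsum
  have h3 : 8 * C * J ≤ ε / 2 * I := by
    have h4 : 8 * C * J / (ε / 2) ≤ I := hI₁.le.trans (by exact_mod_cast (by omega : I₁ ≤ I))
    rw [div_le_iff₀ (half_pos hε)] at h4
    linarith
  linarith

theorem Lw_split (ψ : ℝ → ℝ) (z : ℂ) {a b c : ℕ} (h1 : a ≤ b) (h2 : b ≤ c) :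
    Lw ψ z a c = Lw ψ z a b + Lw ψ z b c := by
  unfold Lw
  exact ioc_split _ h1 h2

theorem Lw_le {ψ : ℝ → ℝ} {κ : ℕ} {L : ℝ} (hψ : PW ψ κ L) {z : ℂ} (hz : ‖z‖ = 1) (a b : ℕ) :
    ‖Lw ψ z a b‖ ≤ ∑ k ∈ Ioc a b, tp ψ k / k := by
  unfold Lw
  refine (norm_sum_le _ _).trans (Finset.sum_le_sum fun k _ => ?_)
  rw [norm_mul, norm_pow, hz, one_pow, mul_one, Complex.norm_real, Real.norm_eq_abs,
    abs_of_nonneg (div_nonneg (tp_nonneg hψ k) (Nat.cast_nonneg k))]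

theorem blkW {q : ℕ} (hq : 1 ≤ q) {z : ℂ} (hz : z ^ q = 1) (hz1 : MS.Ok z) {ψ : ℝ → ℝ}
    {κ : ℕ} {L : ℝ} (hψ : PW ψ κ L) {ε : ℝ} (hε : 0 < ε) :
    ∃ K : ℝ, 0 ≤ K ∧ ∀ B I : ℕ, ‖Lw ψ z (4 ^ B) (4 ^ (B + I))‖ ≤ ε * I + K := by
  have hzn : ‖z‖ = 1 := Complex.norm_eq_one_of_pow_eq_one hz (by omega)
  obtain ⟨C, hC, hT⟩ := TT_sum hψ
  obtain ⟨I₁, hI₁, B₀, hB₀⟩ := BlkW_step hq hz hz1 hψ hε
  have htriv : ∀ B I : ℕ, ‖Lw ψ z (4 ^ B) (4 ^ (B + I))‖ ≤ 4 * C * I := fun B I =>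
    (Lw_le hψ hzn _ _).trans (by have := dy (tp_nonneg hψ) le_rfl hT B I; linarith)
  have h1 : ∀ I : ℕ, ∀ B : ℕ, B₀ ≤ B → ‖Lw ψ z (4 ^ B) (4 ^ (B + I))‖ ≤ ε * I + 4 * C * I₁ := by
    intro I
    induction I using Nat.strong_induction_on with
    | _ I ih =>
      intro B hB
      by_cases h2 : I < I₁
      · have h3 := htriv B I
        have h4 : (I : ℝ) ≤ I₁ := by exact_mod_cast h2.le
        have h5 : 4 * C * I ≤ 4 * C * I₁ := mul_le_mul_of_nonneg_left h4 (by positivity)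
        have h6 : 0 ≤ ε * I := by positivity
        linarith
      · push Not at h2
        have h3 := ih (I - I₁) (by omega) (B + I₁) (by omega)
        have e1 : B + I₁ + (I - I₁) = B + I := by omega
        rw [e1, Nat.cast_sub h2] at h3
        have h4 := hB₀ B hB
        rw [Lw_split ψ z (b := 4 ^ (B + I₁)) (Nat.pow_le_pow_right (by norm_num) (by omega))
          (Nat.pow_le_pow_right (by norm_num) (by omega))]
        have h5 := norm_add_le (Lw ψ z (4 ^ B) (4 ^ (B + I₁))) (Lw ψ z (4 ^ (B + I₁)) (4 ^ (B + I)))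
        linarith
  refine ⟨4 * C * B₀ + 4 * C * I₁, by positivity, fun B I => ?_⟩
  by_cases h2 : B₀ ≤ B
  · have h3 := h1 I B h2
    have h4 : 0 ≤ 4 * C * B₀ := by positivity
    linarith
  · push Not at h2
    by_cases h3 : B + I ≤ B₀
    · have h4 := htriv B I
      have h5 : (I : ℝ) ≤ B₀ := by exact_mod_cast (by omega : I ≤ B₀)
      have h6 : 4 * C * I ≤ 4 * C * B₀ := mul_le_mul_of_nonneg_left h5 (by positivity)
      have h7 : 0 ≤ ε * I := by positivity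
      have h8 : 0 ≤ 4 * C * I₁ := by positivity
      linarith
    · push Not at h3
      have h4 := htriv B (B₀ - B)
      have h5 := h1 (B + I - B₀) B₀ le_rfl
      have e1 : B + (B₀ - B) = B₀ := by omega
      have e2 : B₀ + (B + I - B₀) = B + I := by omega
      rw [e1] at h4
      rw [e2] at h5
      rw [Lw_split ψ z (b := 4 ^ B₀) (Nat.pow_le_pow_right (by norm_num) (by omega))
        (Nat.pow_le_pow_right (by norm_num) (by omega))]
      have h6 := norm_add_le (Lw ψ z (4 ^ B) (4 ^ B₀)) (Lw ψ z (4 ^ B₀) (4 ^ (B + I)))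
      have h7 : ((B₀ - B : ℕ) : ℝ) ≤ B₀ := by exact_mod_cast (by omega : B₀ - B ≤ B₀)
      have h8 : ((B + I - B₀ : ℕ) : ℝ) ≤ I := by exact_mod_cast (by omega : B + I - B₀ ≤ I)
      have h9 : 4 * C * ((B₀ - B : ℕ) : ℝ) ≤ 4 * C * B₀ := mul_le_mul_of_nonneg_left h7 (by positivity)
      have h10 : ε * ((B + I - B₀ : ℕ) : ℝ) ≤ ε * I := mul_le_mul_of_nonneg_left h8 hε.le
      linarith

theorem smW {q : ℕ} (hq : 1 ≤ q) {z : ℂ} (hz : z ^ q = 1) (hz1 : MS.Ok z) {ψ : ℝ → ℝ}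
    {κ : ℕ} {L : ℝ} (hψ : PW ψ κ L) {ε : ℝ} (hε : 0 < ε) :
    ∃ K : ℝ, 0 ≤ K ∧ ∀ A X : ℕ, 1 ≤ A → A ≤ X → ‖Lw ψ z A X‖ ≤ ε * Real.log (X / A) + K := by
  have hzn : ‖z‖ = 1 := Complex.norm_eq_one_of_pow_eq_one hz (by omega)
  obtain ⟨C, hC, hT⟩ := TT_sum hψ
  obtain ⟨K, hK, hb⟩ := blkW hq hz hz1 hψ hε
  refine ⟨ε + K + 8 * C, by positivity, fun A X hA hX => ?_⟩
  obtain ⟨b, s, h1, h2, h3, h4, h5⟩ := win hA hX
  have g1 := Lw_split ψ z h1 hX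
  have g2 := Lw_split ψ z (show 4 ^ b ≤ 4 ^ (b + s) from Nat.pow_le_pow_right (by norm_num) (by omega)) h3
  have e1 : Lw ψ z A X = Lw ψ z (4 ^ b) (4 ^ (b + s)) + Lw ψ z (4 ^ (b + s)) X - Lw ψ z (4 ^ b) A := by
    rw [← g2, g1]
    ring
  have hsub : ∀ a c d : ℕ, c ≤ d → ∑ k ∈ Ioc a c, tp ψ k / k ≤ ∑ k ∈ Ioc a d, tp ψ k / k := by
    intro a c d hcd
    exact Finset.sum_le_sum_of_subset_of_nonneg (Finset.Ioc_subset_Ioc le_rfl hcd)
      fun k _ _ => div_nonneg (tp_nonneg hψ k) (Nat.cast_nonneg k)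
  have h6 : ‖Lw ψ z (4 ^ (b + s)) X‖ ≤ 4 * C := by
    refine (Lw_le hψ hzn _ _).trans ((hsub _ _ _ h4.le).trans ?_)
    have := dy (tp_nonneg hψ) le_rfl hT (b + s) 1
    norm_num at this
    exact this
  have h7 : ‖Lw ψ z (4 ^ b) A‖ ≤ 4 * C := by
    refine (Lw_le hψ hzn _ _).trans ((hsub _ _ _ h2.le).trans ?_)
    have := dy (tp_nonneg hψ) le_rfl hT b 1
    norm_num at this
    exact this
  have h8 := hb b s
  rw [e1]
  have h9 := norm_sub_le (Lw ψ z (4 ^ b) (4 ^ (b + s)) + Lw ψ z (4 ^ (b + s)) X) (Lw ψ z (4 ^ b) A)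
  have h10 := norm_add_le (Lw ψ z (4 ^ b) (4 ^ (b + s))) (Lw ψ z (4 ^ (b + s)) X)
  have h11 : ε * s ≤ ε * (Real.log (X / A) + 1) := mul_le_mul_of_nonneg_left h5 hε.le
  linarith

end Pool.Agent.Lib.MP_d57abb_nt.GA.AW
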